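import Pool.Agent.Lib.MP_eee7a8_ag.TB.IfaceA

/-!
# TAGBR, module EVN: evaluation of Laurent polynomials with coefficients in `ℕ`
-/

open Matrix

namespace Pool.Agent.Lib.MP_eee7a8_ag.TB.A.H94

/-- complexification of the coefficients -/
noncomputable def cx (ι : Type) : LP ι →+* AddMonoidAlgebra ℂ (ι → ℤ) :=
  AddMonoidAlgebra.mapRingHom (ι → ℤ) (Nat.castRingHom ℂ)

theorem cx_injective (ι : Type) : Function.Injective (cx ι) :=
  AddMonoidAlgebra.map_injective (Nat.castRingHom ℂ).toAddMonoidHom Nat.cast_injective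

theorem evN_eq {G : Subgroup SLZ} {K : Type} [Field K] [Algebra ℂ K] (L : Lam G K)
    {ι : Type} [Fintype ι] (T : Fam ι) (p : LP ι) : L.evN T p = L.ev T (cx ι p) := by
  unfold Lam.evN Lam.ev
  have h : (cx ι p).coeff = p.coeff.mapRange (Nat.castRingHom ℂ) (map_zero _) := by
    ext m
    simp [cx]
  rw [h, Finsupp.sum_mapRange_index (by intro a; simp)]
  simp

theorem ev_single {G : Subgroup SLZ} {K : Type} [Field K] [Algebra ℂ K] (L : Lam G K)
    {ι : Type} [Fintype ι] (T : Fam ι) (m : ι → ℤ) (c : ℂ) :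
    L.ev T (AddMonoidAlgebra.single m c) = algebraMap ℂ K c * L.mon T m := by
  unfold Lam.ev
  simp

theorem evn : EvnStatement := by
  intro G K _ _ L ι _ T hT
  have h1 : ∀ m, L.evN T (AddMonoidAlgebra.single m 1) = L.mon T m := by
    intro m
    rw [evN_eq]
    simp [cx, ev_single]
  have h0 : L.ev T 0 = 0 := by
    unfold Lam.ev
    simp
  refine ⟨?_, ?_, ?_, ?_, ?_, h1, ?_⟩
  · intro p q h
    rw [evN_eq, evN_eq] at h
    exact cx_injective ι (hT.inj h)
  · intro p q
    rw [evN_eq, evN_eq, evN_eq, map_mul, hT.mul]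
  · intro p q
    rw [evN_eq, evN_eq, evN_eq, map_add, hT.add]
  · rw [evN_eq, map_one, hT.one]
  · rw [evN_eq, map_zero, h0]
  · intro i h
    classical
    have h2 : L.ev T (AddMonoidAlgebra.single (Pi.single i (1 : ℤ)) 1) = 0 := by
      rw [ev_single]
      have : L.mon T (Pi.single i (1 : ℤ)) = 0 := by
        unfold Lam.mon
        apply Finset.prod_eq_zero (Finset.mem_univ i)
        rw [h]
        simp
      rw [this, mul_zero]
    rw [← h0] at h2
    have h3 := hT.inj h2
    have h4 := congrArg (fun q => AddMonoidAlgebra.coeff q (Pi.single i (1 : ℤ))) h3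
    simp at h4

end Pool.Agent.Lib.MP_eee7a8_ag.TB.A.H94
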